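import Mathlib
import Pool.Agent.V7H46.ECP.Main

/-!
# Strictly outer actions without ergodic cocycle perturbation

For every discrete group `G` (amenable or not, of any cardinality) there are a II₁ factor `M` and a
strictly outer action `α` of `G` on `M` such that no cocycle perturbation of `α` is ergodic; even
`Ad(v_g) ∘ α_g` has a common fixed element that is not a scalar, for every family `(v_g)` of
unitaries of `M`. Here `M` is the group von Neumann algebra of the group of finitary permutations
of a very large set, and has nonseparable predual.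
-/

set_option autoImplicit false

namespace Pool.Agent.Results.MP_418a80_an.NoErgodicPerturbationH46

open Pool.Agent.V7H46.ECP

universe u

theorem _root_.Pool.Agent.Results.MP_418a80_an.NoErgodicPerturbationH46.result
    (G : Type u) [Group G] :
    ∃ (H : Type u) (_ : NormedAddCommGroup H) (_ : InnerProductSpace ℂ H) (_ : CompleteSpace H)
      (M : VonNeumannAlgebra H) (α : G → (H →L[ℂ] H) → (H →L[ℂ] H)),
      IsIIOneFactor M ∧ IsAction M α ∧ IsStrictlyOuter M α ∧ ¬ AdmitsErgodicPerturbation M α ∧
        ∀ v : G → (H →L[ℂ] H), IsUnitaryFamily M v →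
          ∃ x ∈ M, IsFixedBy α v x ∧ ¬ ∃ c : ℂ, x = c • (1 : H →L[ℂ] H) := by
  refine ⟨EllTwo (FinPerm (XX G)) ℂ, inferInstance, inferInstance, inferInstance,
    LG (FinPerm (XX G)), act (th G), isIIOne G, isAction_act (th G), strictlyOuter G, ?_, main G⟩
  rintro ⟨v, hv, herg⟩
  obtain ⟨x, hx, hfix, hne⟩ := main G v hv.1
  exact hne (herg x hx hfix)

end Pool.Agent.Results.MP_418a80_an.NoErgodicPerturbationH46
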